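import Pool.Agent.Lib.MP_abd978_an.UN.Interfaces
import Pool.Agent.Lib.MP_abd978_an.H10.Cut
import Pool.Agent.Lib.MP_abd978_an.H86.Intg

/-!
# Project UNW, module POLE
-/

set_option autoImplicit false

open MeasureTheory Metric Set Filter Topology ContDiff
open scoped Gradient RealInnerProductSpace NNReal ENNReal

namespace Pool.Agent.Lib.MP_abd978_an.UN.H2

variable {n : ℕ}

theorem one_le_dx {p : ℝ} (hp : 1 < p) : (1 : ENNReal) ≤ ENNReal.ofReal (dx p) := by
  rw [← ENNReal.ofReal_one]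
  refine ENNReal.ofReal_le_ofReal ?_
  unfold dx
  rw [le_div_iff₀ (by linarith)]
  linarith

/-- `⟪k, ∇φ⟫` is integrable if `k ∈ L^q(ball)`, `q ≥ 1`, and `φ` is a test function -/
theorem integrable_inner_grad {q : ENNReal} (hq : 1 ≤ q) {R : ℝ} {k : E n → E n} {φ : E n → ℝ}
    (hk : MemLp k q (volume.restrict (ball 0 R))) (hφ : Test (ball 0 R) φ) :
    Integrable fun x => ⟪k x, ∇ φ x⟫ := by
  obtain ⟨C, hC, -, h2⟩ := hφ.exists_bound
  have hfin : IsFiniteMeasure (volume.restrict (ball (0 : E n) R)) :=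
    ⟨by rw [Measure.restrict_apply_univ]; exact measure_ball_lt_top⟩
  have h1 : Integrable k (volume.restrict (ball 0 R)) := hk.integrable hq
  have h3 : Integrable (fun x => ⟪k x, ∇ φ x⟫) (volume.restrict (ball 0 R)) := by
    refine Integrable.mono' (h1.norm.mul_const C) ?_ (Eventually.of_forall fun x => ?_)
    · exact h1.1.inner (continuous_grad hφ.1).aestronglyMeasurable
    · refine (norm_inner_le_norm _ _).trans ?_
      exact mul_le_mul_of_nonneg_left (h2 x) (norm_nonneg _)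
  refine (integrableOn_iff_integrable_of_support_subset ?_).1 h3
  intro x hx
  by_contra hcon
  refine hx ?_
  show ⟪k x, ∇ φ x⟫ = 0
  rw [grad_eq_zero_of_notMem fun h => hcon (hφ.2.2 h), inner_zero_right]

/-- the equation for test functions -/
theorem eqn_test (hker : KerStatement) {p : ℝ} {a : E n → E n → E n} {R : ℝ}
    {s : Finset (E n)} {w : E n → ℝ} {u : E n → ℝ} {U : E n → E n} (hn : 2 ≤ n)
    (hp : (n : ℝ) < p) (hR : 0 < R) (hS : Sol p a R (fun x => ∑ z ∈ s, w z • ker z x) u U)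
    {φ : E n → ℝ} (hφ : Test (ball 0 R) φ) :
    ∫ x, ⟪a x (U x), ∇ φ x⟫ = ∑ z ∈ s, w z * φ z := by
  obtain ⟨k1, -, k3, -⟩ := hker n p R hn hp hR
  have hn2 : (2 : ℝ) ≤ n := by exact_mod_cast hn
  have hp1 : 1 < p := by linarith
  rw [hS.eqn φ (fun x => ∇ φ x) hφ.h0]
  have h1 : ∀ x, ⟪∑ z ∈ s, w z • ker z x, ∇ φ x⟫ = ∑ z ∈ s, w z * ⟪ker z x, ∇ φ x⟫ := by
    intro x
    rw [sum_inner]
    refine Finset.sum_congr rfl fun z _ => ?_
    rw [real_inner_smul_left]
  simp_rw [h1]
  rw [integral_finsetSum]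
  · refine Finset.sum_congr rfl fun z _ => ?_
    rw [integral_const_mul, k3 z φ (hφ.mono (subset_univ _))]
  · intro z _
    exact (integrable_inner_grad (one_le_dx hp1) (k1 z) hφ).const_mul _

/-- `u` is a solution away from the poles -/
theorem sol_away (hker : KerStatement) {p : ℝ} {a : E n → E n → E n} {R : ℝ}
    {s : Finset (E n)} {w : E n → ℝ} {u : E n → ℝ} {U : E n → E n} (hn : 2 ≤ n)
    (hp : (n : ℝ) < p) (hR : 0 < R) (hS : Sol p a R (fun x => ∑ z ∈ s, w z • ker z x) u U) :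
    IsOpen (ball (0 : E n) R \ (s : Set (E n))) ∧
    LocSob volume p (ball (0 : E n) R \ (s : Set (E n))) u U ∧
    Eqn volume a (ball (0 : E n) R \ (s : Set (E n))) U := by
  refine ⟨isOpen_ball.sdiff s.finite_toSet.isClosed, fun D _ _ _ => ?_, fun φ hφ => ?_⟩
  · have hg : Test univ (fun _ : E n => (0 : ℝ)) := by
      refine ⟨contDiff_const, HasCompactSupport.zero, subset_univ _⟩
    refine H0.isSob (D := ball 0 R) hg ?_ D
    have h1 : ∀ x : E n, ∇ (fun _ : E n => (0 : ℝ)) x = 0 := by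
      intro x
      rw [grad_eq]
      simp
    have h2 : (fun x => u x - (fun _ : E n => (0 : ℝ)) x) = u := by
      funext x
      simp
    have h3 : (fun x => U x - ∇ (fun _ : E n => (0 : ℝ)) x) = U := by
      funext x
      rw [h1, sub_zero]
    rw [h2, h3]
    exact hS.h0
  · rw [eqn_test hker hn hp hR hS (hφ.mono sdiff_subset)]
    refine Finset.sum_eq_zero fun z hz => ?_
    have h1 : z ∉ tsupport φ := fun h => (hφ.2.2 h).2 (by exact_mod_cast hz)
    rw [image_eq_zero_of_notMem_tsupport h1, mul_zero]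

/-- the algebra of the exponents -/
theorem rpow_alg {p : ℝ} (hn : 2 ≤ n) (hp : (n : ℝ) < p) {A C' g ρ : ℝ} (hA : 0 ≤ A)
    (hC' : 0 ≤ C') (hg : 0 ≤ g) (hρ : 0 < ρ) :
    (C' * ρ ^ al n p) ^ ((p - 1) / p) * (A * (ρ ^ n * g)) ^ (1 / p) =
      ρ * (C' ^ ((p - 1) / p) * A ^ (1 / p) * g ^ (1 / p)) := by
  have hn2 : (2 : ℝ) ≤ n := by exact_mod_cast hn
  have hp1 : 1 < p := by linarith
  have h1 : (ρ ^ al n p) ^ ((p - 1) / p) = ρ ^ ((p - n) / p) := by
    rw [← Real.rpow_mul hρ.le]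
    congr 1
    unfold al
    have : p - 1 ≠ 0 := by linarith
    have : p ≠ 0 := by linarith
    field_simp
  have h2 : ((ρ ^ n : ℝ)) ^ (1 / p) = ρ ^ ((n : ℝ) / p) := by
    rw [← Real.rpow_natCast, ← Real.rpow_mul hρ.le]
    congr 1
    ring
  have h3 : ρ ^ ((p - n) / p) * ρ ^ ((n : ℝ) / p) = ρ := by
    rw [← Real.rpow_add hρ]
    have : (p - n) / p + n / p = 1 := by
      have : p ≠ 0 := by linarith
      field_simp
      ring
    rw [this, Real.rpow_one]
  rw [Real.mul_rpow hC' (by positivity), Real.mul_rpow hA (by positivity),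
    Real.mul_rpow (by positivity) hg, h1, h2]
  calc C' ^ ((p - 1) / p) * ρ ^ ((p - ↑n) / p) * (A ^ (1 / p) * (ρ ^ ((n : ℝ) / p) * g ^ (1 / p)))
      = (ρ ^ ((p - ↑n) / p) * ρ ^ ((n : ℝ) / p)) * (C' ^ ((p - 1) / p) * A ^ (1 / p) *
        g ^ (1 / p)) := by ring
    _ = _ := by rw [h3]

/-- the elementary bound near a pole -/
theorem near_pole {p α β : ℝ} {a : E n → E n → E n} (hn : 2 ≤ n) (hp : (n : ℝ) < p)
    (hop : Op p volume a α β) {U : E n → E n} (hU : MemLp U (ENNReal.ofReal p) volume)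
    {T : E n → ℝ} (hTm : Measurable T) {M : ℝ} (hTM : ∀ x, |T x| ≤ M) {z : E n} {C' ρ r C : ℝ}
    (hC' : 0 ≤ C') (hr : 0 < r) (hρ : ρ = 3 * r) (hC : 0 ≤ C)
    (hgr : ∫ x in ball z ρ, ‖U x‖ ^ p ≤ C' * ρ ^ al n p) {η : E n → ℝ}
    (hsup : tsupport η ⊆ closedBall z (2 * r)) (hgrad : ∀ x, ‖∇ η x‖ ≤ C / r) :
    |∫ x, (T x - T z) * ⟪a x (U x), ∇ η x⟫| ≤
      (3 * C * β * ((2 * M) ^ (p - 1) * volume.real (ball (0 : E n) 1)) ^ (1 / p) *
        C' ^ ((p - 1) / p)) * (⨍ y in ball z ρ, |T y - T z|) ^ (1 / p) := by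
  have hn2 : (2 : ℝ) ≤ n := by exact_mod_cast hn
  have hp1 : 1 < p := by linarith
  have hM : 0 ≤ M := (abs_nonneg _).trans (hTM 0)
  have hβ : 0 < β := hop.hα.trans_le hop.hαβ
  have hρ0 : 0 < ρ := by rw [hρ]; positivity
  have hne : Nonempty (Fin n) := ⟨⟨0, by omega⟩⟩
  have : Nontrivial (E n) := by
    infer_instance
  set B : Set (E n) := ball z ρ with hB
  set ν : Measure (E n) := volume.restrict B with hν
  have hfin : IsFiniteMeasure ν :=
    ⟨by rw [hν, Measure.restrict_apply_univ]; exact measure_ball_lt_top⟩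
  obtain ⟨i0⟩ := hne
  let e : E n := EuclideanSpace.single i0 1
  have he : ‖e‖ = 1 := by simp [e]
  let V : E n → E n := fun x => (T x - T z) • e
  have hVn : ∀ x, ‖V x‖ = |T x - T z| := by
    intro x
    simp only [V, norm_smul, he, mul_one, Real.norm_eq_abs]
  have hbd : ∀ x, |T x - T z| ≤ 2 * M := by
    intro x
    have h1 := abs_sub (T x) (T z)
    have h2 := hTM x
    have h3 := hTM z
    linarith
  have hVm : Measurable V := (hTm.sub_const _).smul_const _
  have hV : MemLp V (ENNReal.ofReal p) ν := by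
    refine MemLp.of_bound hVm.aestronglyMeasurable (2 * M) (Eventually.of_forall fun x => ?_)
    rw [hVn]
    exact hbd x
  obtain ⟨-, i2, i3, -⟩ := H86.intg n p volume ν a α β U V hop (hU.restrict _) hV
  -- reduction to the ball
  have h1 : ∫ x, (T x - T z) * ⟪a x (U x), ∇ η x⟫ =
      ∫ x, (T x - T z) * ⟪a x (U x), ∇ η x⟫ ∂ν := by
    rw [hν]
    refine (setIntegral_eq_integral_of_forall_compl_eq_zero fun x hx => ?_).symm
    have h2 : x ∉ tsupport η := by
      intro h3
      have h4 := mem_closedBall.1 (hsup h3)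
      refine hx (mem_ball.2 (lt_of_le_of_lt h4 ?_))
      rw [hρ]
      linarith
    rw [grad_eq_zero_of_notMem h2, inner_zero_right, mul_zero]
  have h2 : |∫ x, (T x - T z) * ⟪a x (U x), ∇ η x⟫ ∂ν| ≤
      ∫ x, (C / r * β) * (‖U x‖ ^ (p - 1) * ‖V x‖) ∂ν := by
    rw [← Real.norm_eq_abs]
    refine norm_integral_le_of_norm_le (i2.const_mul _) (Eventually.of_forall fun x => ?_)
    rw [norm_mul, Real.norm_eq_abs, ← hVn x]
    have h3 : ‖⟪a x (U x), ∇ η x⟫‖ ≤ β * ‖U x‖ ^ (p - 1) * (C / r) := by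
      refine (norm_inner_le_norm _ _).trans ?_
      exact mul_le_mul (hop.bdd x (U x)) (hgrad x) (norm_nonneg _) (by positivity)
    calc ‖V x‖ * ‖⟪a x (U x), ∇ η x⟫‖ ≤ ‖V x‖ * (β * ‖U x‖ ^ (p - 1) * (C / r)) :=
          mul_le_mul_of_nonneg_left h3 (norm_nonneg _)
      _ = _ := by ring
  have hvol : volume.real B = ρ ^ n * volume.real (ball (0 : E n) 1) := by
    rw [hB, measureReal_def, Measure.addHaar_ball volume z hρ0.le, ENNReal.toReal_mul,
      ENNReal.toReal_ofReal (by positivity), finrank_euclideanSpace, Fintype.card_fin,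
      measureReal_def]
  have hvol0 : 0 < volume.real (ball (0 : E n) 1) := hop.pos 0 1 one_pos
  have h4 : ∫ x, ‖V x‖ ^ p ∂ν ≤ ((2 * M) ^ (p - 1) * volume.real (ball (0 : E n) 1)) *
      (ρ ^ n * ⨍ y in B, |T y - T z|) := by
    have h5 : ∀ x, ‖V x‖ ^ p ≤ (2 * M) ^ (p - 1) * |T x - T z| := by
      intro x
      rw [hVn]
      rcases (abs_nonneg (T x - T z)).eq_or_lt with h6 | h6
      · rw [← h6, Real.zero_rpow (by linarith), mul_zero]
      · have h7 : |T x - T z| ^ p = |T x - T z| ^ (p - 1) * |T x - T z| := by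
          rw [← Real.rpow_add_one h6.ne']
          congr 1
          ring
        rw [h7]
        exact mul_le_mul_of_nonneg_right
          (Real.rpow_le_rpow h6.le (hbd x) (by linarith)) h6.le
    have h8 : Integrable (fun x => |T x - T z|) ν := by
      refine (Integrable.of_bound (C := 2 * M)
        ((hTm.sub_const _).aestronglyMeasurable (μ := ν)) (Eventually.of_forall fun x => ?_)).abs
      rw [Real.norm_eq_abs]
      exact hbd x
    have h9 : ∫ x, |T x - T z| ∂ν = volume.real B * ⨍ y in B, |T y - T z| := by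
      rw [setAverage_eq, smul_eq_mul, ← mul_assoc, mul_inv_cancel₀, one_mul]
      rw [hvol]
      positivity
    calc ∫ x, ‖V x‖ ^ p ∂ν ≤ ∫ x, (2 * M) ^ (p - 1) * |T x - T z| ∂ν :=
          integral_mono (H86.integrable_rpow hp1 hV) (h8.const_mul _) h5
      _ = _ := by
          rw [integral_const_mul, h9, hvol]
          ring
  have h5 : 0 ≤ ⨍ y in B, |T y - T z| := by
    rw [setAverage_eq]
    exact smul_nonneg (by positivity) (integral_nonneg fun x => abs_nonneg _)
  rw [h1]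
  refine h2.trans ?_
  rw [integral_const_mul]
  have h6 : (∫ x, ‖U x‖ ^ p ∂ν) ^ ((p - 1) / p) ≤ (C' * ρ ^ al n p) ^ ((p - 1) / p) :=
    Real.rpow_le_rpow (integral_nonneg fun x => by positivity) hgr
      (div_nonneg (by linarith) (by linarith))
  have h7 : (∫ x, ‖V x‖ ^ p ∂ν) ^ (1 / p) ≤
      (((2 * M) ^ (p - 1) * volume.real (ball (0 : E n) 1)) *
      (ρ ^ n * ⨍ y in B, |T y - T z|)) ^ (1 / p) :=
    Real.rpow_le_rpow (integral_nonneg fun x => by positivity) h4
      (div_nonneg (by linarith) (by linarith))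
  have h8 := i3.trans (mul_le_mul h6 h7 (Real.rpow_nonneg (integral_nonneg fun x => by positivity) _)
    (Real.rpow_nonneg (by positivity) _))
  rw [rpow_alg hn hp (by positivity) hC' h5 hρ0] at h8
  calc C / r * β * ∫ x, ‖U x‖ ^ (p - 1) * ‖V x‖ ∂ν
      ≤ C / r * β * (ρ * (C' ^ ((p - 1) / p) *
        ((2 * M) ^ (p - 1) * volume.real (ball (0 : E n) 1)) ^ (1 / p) *
        (⨍ y in B, |T y - T z|) ^ (1 / p))) := mul_le_mul_of_nonneg_left h8 (by positivity)
    _ = _ := by
        rw [hρ]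
        field_simp
        rfl

/-- the limit at one pole -/
theorem lim_pole (hker : KerStatement) (hpg : PgrowStatement) {p α β : ℝ} {a : E n → E n → E n}
    (hn : 2 ≤ n) (hp : (n : ℝ) < p) (hop : Op p volume a α β) {R : ℝ} (hR : 0 < R)
    {s : Finset (E n)} {w : E n → ℝ} {u : E n → ℝ} {U : E n → E n}
    (hs : ∀ z ∈ s, z ∈ ball 0 R) (hS : Sol p a R (fun x => ∑ z ∈ s, w z • ker z x) u U)
    {T : E n → ℝ} (hTm : Measurable T) {M : ℝ} (hTM : ∀ x, |T x| ≤ M) {z : E n} (hz : z ∈ s)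
    (hT : LebPt T z) {C : ℝ} (hC : 0 ≤ C) {η : ℝ → E n → ℝ}
    (hη : ∀ r, 0 < r → Test univ (η r) ∧ (∀ x, η r x ∈ Icc (0 : ℝ) 1) ∧
      (∀ x ∈ closedBall z r, η r x = 1) ∧ tsupport (η r) ⊆ closedBall z (2 * r) ∧
      ∀ x, ‖∇ (η r) x‖ ≤ C / r) :
    Tendsto (fun r => ∫ x, T x * ⟪a x (U x), ∇ (η r) x⟫) (𝓝[>] 0) (𝓝 (w z * T z)) := by
  have hn2 : (2 : ℝ) ≤ n := by exact_mod_cast hn
  have hp1 : 1 < p := by linarith
  have hU : MemLp U (ENNReal.ofReal p) volume := hS.h0.2.1
  have hint : ∀ φ : E n → ℝ, Test univ φ → Integrable fun x => ⟪a x (U x), ∇ φ x⟫ :=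
    fun φ hφ => (H86.intg n p volume volume a α β U (fun x => ∇ φ x) hop hU
      (hφ.memLp_grad _)).1
  obtain ⟨C0, r₀, hr₀, hC0⟩ := hpg n p a α β R s w u U hn hp hop hR hs hS z hz
  set C' := max C0 0 with hC'
  -- eventually small radii
  have hev : ∀ᶠ r : ℝ in 𝓝[>] 0, 0 < r ∧ 3 * r < r₀ ∧ closedBall z (2 * r) ⊆ ball 0 R ∧
      ∀ z' ∈ s, z' ≠ z → 2 * r < dist z' z := by
    have h0 : ∀ c : ℝ, 0 < c → ∀ᶠ r : ℝ in 𝓝[>] 0, 3 * r < c := by
      intro c hc
      have : Iio (c / 3) ∈ 𝓝 (0 : ℝ) := Iio_mem_nhds (by positivity)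
      filter_upwards [mem_nhdsWithin_of_mem_nhds this] with r hr
      have : r < c / 3 := hr
      linarith
    have hzR : ‖z‖ < R := by simpa using hs z hz
    have h1 := h0 (R - ‖z‖) (by linarith)
    have h2 : ∀ᶠ r : ℝ in 𝓝[>] 0, ∀ z' ∈ s, z' ≠ z → 3 * r < dist z' z := by
      refine (Finset.eventually_all s).2 fun z' _ => ?_
      by_cases h : z' = z
      · exact Eventually.of_forall fun r hr => absurd h hr
      · filter_upwards [h0 (dist z' z) (dist_pos.2 h)] with r hr
        exact fun _ => hr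
    filter_upwards [self_mem_nhdsWithin, h0 r₀ hr₀, h1, h2] with r hr h3 h4 h5
    have hr' : 0 < r := hr
    refine ⟨hr', h3, fun x hx => ?_, fun z' hz' hne => ?_⟩
    · have h6 := mem_closedBall.1 hx
      rw [dist_eq_norm] at h6
      rw [mem_ball_zero_iff]
      have h7 := norm_add_le (x - z) z
      rw [sub_add_cancel] at h7
      linarith
    · have := h5 z' hz' hne
      linarith
  -- the average tends to zero
  have hav : Tendsto (fun r : ℝ => (3 * C * β * ((2 * M) ^ (p - 1) *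
      volume.real (ball (0 : E n) 1)) ^ (1 / p) * C' ^ ((p - 1) / p)) *
      (⨍ y in ball z (3 * r), |T y - T z|) ^ (1 / p)) (𝓝[>] 0) (𝓝 0) := by
    have h1 : Tendsto (fun r : ℝ => 3 * r) (𝓝[>] 0) (𝓝[>] 0) := by
      refine tendsto_nhdsWithin_iff.2 ⟨?_, ?_⟩
      · have h2 : Tendsto (fun r : ℝ => 3 * r) (𝓝 0) (𝓝 (3 * 0)) :=
          tendsto_id.const_mul 3
        rw [mul_zero] at h2
        exact h2.mono_left nhdsWithin_le_nhds
      · filter_upwards [self_mem_nhdsWithin] with r hr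
        have : (0 : ℝ) < r := hr
        show (0 : ℝ) < 3 * r
        positivity
    have h2 : Tendsto (fun r : ℝ => ⨍ y in ball z (3 * r), |T y - T z|) (𝓝[>] 0) (𝓝 0) :=
      hT.comp h1
    have h3 := (h2.rpow_const (p := 1 / p) (Or.inr (by positivity))).const_mul
      (3 * C * β * ((2 * M) ^ (p - 1) *
      volume.real (ball (0 : E n) 1)) ^ (1 / p) * C' ^ ((p - 1) / p))
    rw [Real.zero_rpow (by positivity), mul_zero] at h3
    exact h3
  have h1 : Tendsto (fun r => ∫ x, (T x - T z) * ⟪a x (U x), ∇ (η r) x⟫) (𝓝[>] 0) (𝓝 0) := by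
    refine squeeze_zero_norm' ?_ hav
    filter_upwards [hev] with r hr
    obtain ⟨hr0, hr1, -, -⟩ := hr
    obtain ⟨e1, -, -, e4, e5⟩ := hη r hr0
    rw [Real.norm_eq_abs]
    refine near_pole hn hp hop hU hTm hTM (le_max_right _ _) hr0 rfl hC ?_ e4 e5
    refine (hC0 (3 * r) (by positivity) hr1).trans ?_
    exact mul_le_mul_of_nonneg_right (le_max_left _ _) (by positivity)
  have h2 : (fun r => ∫ x, T x * ⟪a x (U x), ∇ (η r) x⟫) =ᶠ[𝓝[>] 0]
      fun r => (∫ x, (T x - T z) * ⟪a x (U x), ∇ (η r) x⟫) + w z * T z := by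
    filter_upwards [hev] with r hr
    obtain ⟨hr0, -, hr2, hr3⟩ := hr
    obtain ⟨e1, -, e3, e4, -⟩ := hη r hr0
    have hT1 : Test (ball 0 R) (η r) := ⟨e1.1, e1.2.1, e4.trans hr2⟩
    have h3 := eqn_test hker hn hp hR hS hT1
    have h4 : ∑ z' ∈ s, w z' * η r z' = w z := by
      rw [Finset.sum_eq_single_of_mem z hz]
      · rw [e3 z (mem_closedBall_self hr0.le), mul_one]
      · intro z' hz' hne
        have h5 : z' ∉ tsupport (η r) := by
          intro h6
          have h7 := mem_closedBall.1 (e4 h6)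
          have h8 := hr3 z' hz' hne
          linarith
        rw [image_eq_zero_of_notMem_tsupport h5, mul_zero]
    rw [h4] at h3
    have i1 := hint (η r) e1
    have i2 : Integrable fun x => T x * ⟪a x (U x), ∇ (η r) x⟫ := by
      refine Integrable.bdd_mul (c := M) i1 hTm.aestronglyMeasurable
        (Eventually.of_forall fun x => ?_)
      rw [Real.norm_eq_abs]
      exact hTM x
    have h5 : ∀ x, (T x - T z) * ⟪a x (U x), ∇ (η r) x⟫ =
        T x * ⟪a x (U x), ∇ (η r) x⟫ - T z * ⟪a x (U x), ∇ (η r) x⟫ := fun x => by ring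
    simp_rw [h5]
    rw [integral_sub i2 (i1.const_mul _), integral_const_mul, h3]
    ring
  have h3 := h1.add_const (w z * T z)
  rw [zero_add] at h3
  exact h3.congr' h2.symm

/-- POLE -/
theorem pole (hker : KerStatement) (hpg : PgrowStatement) : PoleStatement := by
  intro n p a α β R R' s w u U T Y hn hp hop hTY hR' hs hL hS
  have hn2 : (2 : ℝ) ≤ n := by exact_mod_cast hn
  have hp1 : 1 < p := by linarith
  have hR'0 : 0 < R' := hTY.hR
  have hR : 0 < R := hR'0.trans hR'
  have hne : Nonempty (Fin n) := ⟨⟨0, by omega⟩⟩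
  have hnt : Nontrivial (E n) := by infer_instance
  have hU : MemLp U (ENNReal.ofReal p) volume := hS.h0.2.1
  obtain ⟨M, hM⟩ := hTY.bdd
  obtain ⟨hV1, hV2, hV3⟩ := sol_away hker hn hp hR hS
  obtain ⟨C, hC0, hC⟩ := H10.cut n
  -- a radius `t1`
  obtain ⟨t1, ht1, hR't1, hst1⟩ : ∃ t1 : ℝ, t1 < R ∧ R' < t1 ∧ ∀ z ∈ s, ‖z‖ < t1 := by
    let S' : Finset ℝ := insert R' (s.image fun z => ‖z‖)
    have hS' : S'.Nonempty := Finset.insert_nonempty _ _
    have h1 : S'.max' hS' < R := by
      rw [Finset.max'_lt_iff]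
      intro y hy
      rcases Finset.mem_insert.1 hy with h | h
      · rw [h]
        exact hR'
      · obtain ⟨z, hz, rfl⟩ := Finset.mem_image.1 h
        simpa using hs z hz
    refine ⟨(S'.max' hS' + R) / 2, by linarith, ?_, fun z hz => ?_⟩
    · have := S'.le_max' R' (Finset.mem_insert_self _ _)
      linarith
    · have := S'.le_max' ‖z‖ (Finset.mem_insert_of_mem (Finset.mem_image_of_mem _ hz))
      linarith
  have ht10 : 0 < t1 := hR'0.trans hR't1
  obtain ⟨χ, c1, c2, c3, c4, -⟩ := hC 0 t1 ((t1 + R) / 2) ht10 (by linarith)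
  -- the cut-offs near the poles
  have hex : ∀ (r : ℝ) (z : E n), ∃ η : E n → ℝ, 0 < r → (Test univ η ∧
      (∀ x, η x ∈ Icc (0 : ℝ) 1) ∧ (∀ x ∈ closedBall z r, η x = 1) ∧
      tsupport η ⊆ closedBall z (2 * r) ∧ ∀ x, ‖∇ η x‖ ≤ C / r) := by
    intro r z
    by_cases hr : 0 < r
    · obtain ⟨η, e1, e2, e3, e4, e5⟩ := hC z r (2 * r) hr (by linarith)
      refine ⟨η, fun _ => ⟨e1, e2, e3, e4, fun x => ?_⟩⟩
      have h1 := e5 x
      rwa [show 2 * r - r = r by ring] at h1
    · exact ⟨0, fun h => absurd h hr⟩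
  choose η hη using hex
  have hint : ∀ φ : E n → ℝ, Test univ φ → Integrable fun x => ⟪a x (U x), ∇ φ x⟫ :=
    fun φ hφ => (H86.intg n p volume volume a α β U (fun x => ∇ φ x) hop hU
      (hφ.memLp_grad _)).1
  have hintY : Integrable fun x => ⟪a x (U x), Y x⟫ :=
    (H86.intg n p volume volume a α β U Y hop hU hTY.memY).1
  have hlim : Tendsto (fun r => ∑ z ∈ s, ∫ x, T x * ⟪a x (U x), ∇ (η r z) x⟫) (𝓝[>] 0)
      (𝓝 (∑ z ∈ s, w z * T z)) :=
    tendsto_finsetSum s fun z hz => lim_pole hker hpg hn hp hop hR hs hS hTY.measT hM hz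
      (hL z hz) hC0.le fun r hr => hη r z hr
  -- the test function
  let ψ : ℝ → E n → ℝ := fun r x => χ x - ∑ z ∈ s, η r z x
  have hχ1 : ∀ x : E n, ‖x‖ ≤ t1 → χ x = 1 := fun x hx => c3 x (mem_closedBall_zero_iff.2 hx)
  have hTχ : ∀ x, T x • ∇ χ x = 0 := by
    intro x
    rcases lt_or_ge ‖x‖ t1 with h | h
    · have h1 : χ =ᶠ[𝓝 x] fun _ => (1 : ℝ) := by
        filter_upwards [isOpen_ball.mem_nhds (mem_ball_zero_iff.2 h)] with y hy
        exact hχ1 y (mem_ball_zero_iff.1 hy).le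
      have h2 : ∇ χ x = 0 := by
        rw [grad_eq, h1.fderiv_eq]
        simp
      rw [h2, smul_zero]
    · rw [(hTY.supp x (hR't1.le.trans h)).1, zero_smul]
  -- separation
  have hev : ∀ᶠ r : ℝ in 𝓝[>] 0, 0 < r ∧ (∀ z ∈ s, closedBall z (2 * r) ⊆ ball 0 t1) ∧
      ∀ z ∈ s, ∀ z' ∈ s, z' ≠ z → 3 * r < dist z' z := by
    have h0 : ∀ c : ℝ, 0 < c → ∀ᶠ r : ℝ in 𝓝[>] 0, 3 * r < c := by
      intro c hc
      have : Iio (c / 3) ∈ 𝓝 (0 : ℝ) := Iio_mem_nhds (by positivity)
      filter_upwards [mem_nhdsWithin_of_mem_nhds this] with r hr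
      have : r < c / 3 := hr
      linarith
    have h1 : ∀ᶠ r : ℝ in 𝓝[>] 0, ∀ z ∈ s, 3 * r < t1 - ‖z‖ :=
      (Finset.eventually_all s).2 fun z hz => h0 _ (by linarith [hst1 z hz])
    have h2 : ∀ᶠ r : ℝ in 𝓝[>] 0, ∀ z ∈ s, ∀ z' ∈ s, z' ≠ z → 3 * r < dist z' z := by
      refine (Finset.eventually_all s).2 fun z _ => (Finset.eventually_all s).2 fun z' _ => ?_
      by_cases h : z' = z
      · exact Eventually.of_forall fun r hr => absurd h hr
      · filter_upwards [h0 (dist z' z) (dist_pos.2 h)] with r hr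
        exact fun _ => hr
    filter_upwards [self_mem_nhdsWithin, h1, h2] with r hr h3 h4
    have hr' : 0 < r := hr
    refine ⟨hr', fun z hz x hx => ?_, h4⟩
    have h6 := mem_closedBall.1 hx
    rw [dist_eq_norm] at h6
    rw [mem_ball_zero_iff]
    have h7 := norm_add_le (x - z) z
    rw [sub_add_cancel] at h7
    have h8 := h3 z hz
    linarith
  have hψd : ∀ r, 0 < r → ∀ x, ∇ (ψ r) x = ∇ χ x - ∑ z ∈ s, ∇ (η r z) x := by
    intro r hr x
    have h1 : ∀ z ∈ s, DifferentiableAt ℝ (η r z) x := fun z _ =>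
      (hη r z hr).1.1.differentiable (by simp) x
    have h2 : DifferentiableAt ℝ χ x := c1.1.differentiable (by simp) x
    have h3 : HasFDerivAt (ψ r) (fderiv ℝ χ x - ∑ z ∈ s, fderiv ℝ (η r z) x) x :=
      h2.hasFDerivAt.sub (HasFDerivAt.fun_sum fun z hz => (h1 z hz).hasFDerivAt)
    rw [grad_of_hasFDerivAt h3, map_sub, map_sum]
    rfl
  have hψT : ∀ᶠ r : ℝ in 𝓝[>] 0, Test (ball (0 : E n) R \ (s : Set (E n))) (ψ r) := by
    filter_upwards [hev] with r hr
    obtain ⟨hr0, hr1, hr2⟩ := hr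
    refine ⟨?_, ?_, ?_⟩
    · exact c1.1.sub (ContDiff.sum fun z _ => (hη r z hr0).1.1)
    · have h1 : HasCompactSupport fun x => ∑ z ∈ s, η r z x := by
        refine HasCompactSupport.of_support_subset_isCompact
          (isCompact_closedBall (0 : E n) t1) fun x hx => ?_
        obtain ⟨z, hz, hzx⟩ := Finset.exists_ne_zero_of_sum_ne_zero hx
        exact ball_subset_closedBall (hr1 z hz ((hη r z hr0).2.2.2.1 (subset_tsupport _ hzx)))
      exact c1.2.1.sub h1
    · -- support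
      have h1 : tsupport (ψ r) ⊆ closedBall 0 ((t1 + R) / 2) := by
        refine closure_minimal (fun x hx => ?_) isClosed_closedBall
        by_contra hcon
        refine hx ?_
        show χ x - ∑ z ∈ s, η r z x = 0
        have h2 : χ x = 0 := image_eq_zero_of_notMem_tsupport fun h => hcon (c4 h)
        have h3 : ∀ z ∈ s, η r z x = 0 := fun z hz =>
          image_eq_zero_of_notMem_tsupport fun h => by
            have h4 := mem_ball_zero_iff.1 (hr1 z hz ((hη r z hr0).2.2.2.1 h))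
            refine hcon (mem_closedBall_zero_iff.2 ?_)
            linarith
        rw [h2, Finset.sum_eq_zero h3, sub_zero]
      intro x hx
      refine ⟨?_, fun hxs => ?_⟩
      · have h2 := mem_closedBall_zero_iff.1 (h1 hx)
        rw [mem_ball_zero_iff]
        linarith
      · have hxs' : x ∈ s := by exact_mod_cast hxs
        have h2 : (ψ r) =ᶠ[𝓝 x] fun _ => (0 : ℝ) := by
          filter_upwards [isOpen_ball.mem_nhds (mem_ball_self hr0)] with y hy
          have hy1 : dist y x < r := mem_ball.1 hy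
          have h3 : χ y = 1 := by
            refine hχ1 y ?_
            have h4 : y ∈ closedBall x (2 * r) := mem_closedBall.2 (by linarith)
            exact (mem_ball_zero_iff.1 (hr1 x hxs' h4)).le
          have h4 : ∑ z ∈ s, η r z y = 1 := by
            rw [Finset.sum_eq_single_of_mem x hxs']
            · exact (hη r x hr0).2.2.1 y (ball_subset_closedBall hy)
            · intro z hz hne
              refine image_eq_zero_of_notMem_tsupport fun h5 => ?_
              have h6 := mem_closedBall.1 ((hη r z hr0).2.2.2.1 h5)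
              have h7 := hr2 x hxs' z hz hne
              have h8 := dist_triangle z y x
              rw [dist_comm z y] at h8
              linarith
          show χ y - ∑ z ∈ s, η r z y = 0
          rw [h3, h4, sub_self]
        exact (notMem_tsupport_iff_eventuallyEq.2 h2) hx
  have hid : (fun r => ∫ x, ψ r x * ⟪a x (U x), Y x⟫) =ᶠ[𝓝[>] 0]
      fun r => ∑ z ∈ s, ∫ x, T x * ⟪a x (U x), ∇ (η r z) x⟫ := by
    filter_upwards [hψT, self_mem_nhdsWithin] with r hr hr0
    have hr0' : 0 < r := hr0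
    have h1 := hTY.q _ u U (ψ r) hV1 hS.cont.continuousOn hV2 hV3 hr
    have h2 : ∀ x, ⟪a x (U x), T x • ∇ (ψ r) x + ψ r x • Y x⟫ =
        ψ r x * ⟪a x (U x), Y x⟫ - ∑ z ∈ s, T x * ⟪a x (U x), ∇ (η r z) x⟫ := by
      intro x
      rw [hψd r hr0', smul_sub, hTχ, zero_sub, inner_add_right, inner_neg_right,
        real_inner_smul_right, real_inner_smul_right, inner_sum, Finset.mul_sum]
      ring
    have i1 : Integrable fun x => ψ r x * ⟪a x (U x), Y x⟫ := by
      obtain ⟨Cψ, -, h3, -⟩ := hr.exists_bound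
      refine Integrable.bdd_mul (c := Cψ) hintY hr.1.continuous.aestronglyMeasurable
        (Eventually.of_forall fun x => ?_)
      rw [Real.norm_eq_abs]
      exact h3 x
    have i2 : ∀ z ∈ s, Integrable fun x => T x * ⟪a x (U x), ∇ (η r z) x⟫ := by
      intro z _
      refine Integrable.bdd_mul (c := M) (hint _ (hη r z hr0').1)
        hTY.measT.aestronglyMeasurable (Eventually.of_forall fun x => ?_)
      rw [Real.norm_eq_abs]
      exact hM x
    simp_rw [h2] at h1
    rw [integral_sub i1 (integrable_finsetSum s i2), integral_finsetSum s i2] at h1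
    linarith
  have hlim2 : Tendsto (fun r => ∫ x, ψ r x * ⟪a x (U x), Y x⟫) (𝓝[>] 0)
      (𝓝 (∫ x, ⟪a x (U x), Y x⟫)) := by
    refine tendsto_integral_filter_of_dominated_convergence
      (fun x => (1 + s.card) * ‖⟪a x (U x), Y x⟫‖) ?_ ?_ (hintY.norm.const_mul _) ?_
    · filter_upwards [hψT] with r hr
      exact hr.1.continuous.aestronglyMeasurable.mul hintY.1
    · filter_upwards [self_mem_nhdsWithin] with r hr0
      refine Eventually.of_forall fun x => ?_
      have hr0' : 0 < r := hr0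
      rw [norm_mul]
      refine mul_le_mul_of_nonneg_right ?_ (norm_nonneg _)
      have h1 : ‖∑ z ∈ s, η r z x‖ ≤ s.card := by
        refine (norm_sum_le _ _).trans ?_
        have h2 : ∀ z ∈ s, ‖η r z x‖ ≤ 1 := by
          intro z _
          have h3 := (hη r z hr0').2.1 x
          rw [Real.norm_eq_abs, abs_of_nonneg h3.1]
          exact h3.2
        have h3 := Finset.sum_le_card_nsmul s _ 1 h2
        simpa using h3
      have h2 : ‖χ x‖ ≤ 1 := by
        rw [Real.norm_eq_abs, abs_of_nonneg (c2 x).1]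
        exact (c2 x).2
      exact (norm_sub_le _ _).trans (add_le_add h2 h1)
    · have hs0 : volume (s : Set (E n)) = 0 := s.finite_toSet.measure_zero volume
      have h0 : ∀ᵐ x : E n, x ∉ (s : Set (E n)) := measure_eq_zero_iff_ae_notMem.1 hs0
      filter_upwards [h0] with x hx
      have hx' : x ∉ s := by exact_mod_cast hx
      have h1 : ∀ᶠ r : ℝ in 𝓝[>] 0, ∀ z ∈ s, 2 * r < dist x z := by
        refine (Finset.eventually_all s).2 fun z hz => ?_
        have hd : 0 < dist x z := dist_pos.2 fun h => hx' (h ▸ hz)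
        have : Iio (dist x z / 2) ∈ 𝓝 (0 : ℝ) := Iio_mem_nhds (by positivity)
        filter_upwards [mem_nhdsWithin_of_mem_nhds this] with r hr
        have : r < dist x z / 2 := hr
        linarith
      refine tendsto_nhds_of_eventually_eq ?_
      filter_upwards [h1, self_mem_nhdsWithin] with r hr hr0
      have hr0' : 0 < r := hr0
      have h2 : ∑ z ∈ s, η r z x = 0 := by
        refine Finset.sum_eq_zero fun z hz => image_eq_zero_of_notMem_tsupport fun h3 => ?_
        have h4 := mem_closedBall.1 ((hη r z hr0').2.2.2.1 h3)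
        have h5 := hr z hz
        linarith
      show (χ x - ∑ z ∈ s, η r z x) * ⟪a x (U x), Y x⟫ = ⟪a x (U x), Y x⟫
      rw [h2, sub_zero]
      rcases le_or_gt ‖x‖ t1 with h | h
      · rw [hχ1 x h, one_mul]
      · rw [(hTY.supp x (hR't1.le.trans h.le)).2, inner_zero_right, mul_zero]
  exact tendsto_nhds_unique (hlim2.congr' hid) hlim

end Pool.Agent.Lib.MP_abd978_an.UN.H2
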